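import Pool.Agent.H94R3.WhyburnMain
import Pool.Agent.H94R3.Sequential

/-!
# A countable regular Whyburn space that is not D-separable

In ZFC there is a countable (hence separable, hence d-separable) regular `T₁` Whyburn space that is
not D-separable.
-/

set_option autoImplicit false

open Set Topology

namespace Pool.Agent.Results.MP_c7df87_gt.CountableWhyburn

open Pool.Agent.H94R3.Sigma Pool.Agent.H94R3.Sequential Pool.Agent.H94R3.Whyburn

/-- There is (in ZFC) a countable regular `T₁` Whyburn space which is not D-separable.  Being
countable, it is separable and d-separable, so it answers all three versions of Q1. -/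
theorem result : ∃ (X : Type) (_ : TopologicalSpace X), Countable X ∧ T3Space X ∧
    (∀ (A : Set X) (p : X), p ∈ closure A \ A → ∃ B, B ⊆ A ∧ closure B = B ∪ {p}) ∧
    TopologicalSpace.SeparableSpace X ∧ WeaklyDSeparable X ∧ ¬ SelectivelyDSeparable X := by
  obtain ⟨X, hX, h1, h2, h3, h4⟩ := exists_space
  exact ⟨X, hX, h1, h2, h3, inferInstance, weaklyDSeparable_of_countable X, h4⟩

end Pool.Agent.Results.MP_c7df87_gt.CountableWhyburn
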